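import Pool.Agent.Helper29.PA.FrAct

/-!
# Free groups by groups of the class

`FreeGroup Y ⋊ Q` is in the class for every `Q` in the class and every `Q`-set `Y`.
-/

set_option autoImplicit false

namespace Pool.Agent.Helper29.PA

open Pool.Agent.Helper29.BA Monoid SemidirectProduct

/-- `FreeGroup Y ⋊ Q`. -/
abbrev FQ (Q Y : Type) [Group Q] [MulAction Q Y] : Type := FreeGroup Y ⋊[frAct Q Y] Q

section mapY

variable {Q Q' Y Y' : Type} [Group Q] [Group Q'] [MulAction Q Y] [MulAction Q' Y']

/-- Functoriality of `FreeGroup Y ⋊ Q`. -/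
def mapY (f : Q →* Q') (g : Y → Y') (h : ∀ q y, g (q • y) = f q • g y) : FQ Q Y →* FQ Q' Y' :=
  SemidirectProduct.map (FreeGroup.map g) f (fun q => by
    ext y
    simp [h])

@[simp] theorem mapY_left (f : Q →* Q') (g : Y → Y') (h : ∀ q y, g (q • y) = f q • g y)
    (x : FQ Q Y) : (mapY f g h x).left = FreeGroup.map g x.left := rfl

@[simp] theorem mapY_right (f : Q →* Q') (g : Y → Y') (h : ∀ q y, g (q • y) = f q • g y)
    (x : FQ Q Y) : (mapY f g h x).right = f x.right := rfl

theorem mapY_injective (f : Q →* Q') (g : Y → Y') (h : ∀ q y, g (q • y) = f q • g y)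
    (hf : Function.Injective f) (hg : Function.Injective g) :
    Function.Injective (mapY f g h) := by
  intro a b hab
  ext
  · exact FreeGroup.map_injective hg (congrArg SemidirectProduct.left hab)
  · exact hf (congrArg SemidirectProduct.right hab)

theorem mapY_range (f : Q →* Q') (g : Y → Y') (h : ∀ q y, g (q • y) = f q • g y)
    (hg : Function.Surjective g) :
    (mapY f g h).range = f.range.comap SemidirectProduct.rightHom := by
  ext x
  constructor
  · rintro ⟨a, rfl⟩
    exact ⟨a.right, rfl⟩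
  · rintro ⟨q, hq⟩
    obtain ⟨w, hw⟩ := FreeGroup.map_surjective hg x.left
    refine ⟨⟨w, q⟩, ?_⟩
    ext
    · exact hw
    · exact hq

end mapY

variable {C : ∀ (G : Type) [Group G], Prop}

theorem fq_range (hC : ClosedClass C) {Q Q' Y Y' : Type} [Group Q] [Group Q'] [MulAction Q Y]
    [MulAction Q' Y'] (f : Q →* Q') (g : Y → Y') (h : ∀ q y, g (q • y) = f q • g y)
    (hf : Function.Injective f) (hg : Function.Injective g) (hM : C (FQ Q Y)) :
    C (mapY f g h).range :=
  hC.iso _ _ (MonoidHom.ofInjective (mapY_injective f g h hf hg)) hM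

theorem fq_finiteIndex (hC : ClosedClass C) {Q Q' Y Y' : Type} [Group Q] [Group Q'] [MulAction Q Y]
    [MulAction Q' Y'] (f : Q →* Q') (g : Y → Y') (h : ∀ q y, g (q • y) = f q • g y)
    (hf : Function.Injective f) (hg : Function.Bijective g) (hfi : f.range.FiniteIndex)
    (hM : C (FQ Q Y)) : C (FQ Q' Y') := by
  refine hC.finiteIndex _ (mapY f g h).range ?_ (fq_range hC f g h hf hg.1 hM)
  rw [mapY_range f g h hg.2]
  exact ⟨by
    rw [Subgroup.index_comap_of_surjective _ SemidirectProduct.rightHom_surjective]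
    exact hfi.index_ne_zero⟩

/-- `Multiplicative ℤ`. -/
abbrev ZZ : Type := Multiplicative ℤ

section semifree

variable {Y : Type} [MulAction ZZ Y]

/-- The representative of the orbit. -/
noncomputable def rep (y : Y) : Y := (Quotient.mk (MulAction.orbitRel ZZ Y) y).out

theorem rep_smul (z : ZZ) (y : Y) : rep (z • y) = rep y := by
  unfold rep
  congr 1
  exact MulAction.orbitRel.Quotient.quotient_smul_eq

theorem exists_rep (y : Y) : ∃ k : ZZ, k • rep y = y := by
  have h : MulAction.orbitRel ZZ Y (rep y) y := Quotient.exact (Quotient.out_eq _)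
  rw [MulAction.orbitRel_apply] at h
  obtain ⟨k, hk⟩ := h
  refine ⟨k⁻¹, ?_⟩
  rw [← hk]
  simp

/-- The coordinate in the orbit. -/
noncomputable def crd (y : Y) : ZZ := (exists_rep y).choose

theorem crd_smul_rep (y : Y) : crd y • rep y = y := (exists_rep y).choose_spec

theorem crd_smul (z : ZZ) (y : Y) (h : ∀ w : ZZ, w • y = y → w = 1) :
    crd (z • y) = z * crd y := by
  have h1 : crd (z • y) • rep y = z • y := by
    rw [← rep_smul z y, crd_smul_rep]
  have h2 : (z * crd y) • rep y = z • y := by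
    rw [mul_smul, crd_smul_rep]
  have h3 : (z⁻¹ * crd (z • y) * (crd y)⁻¹) • y = y := by
    have h4 : (crd y)⁻¹ • y = rep y := by
      rw [inv_smul_eq_iff, crd_smul_rep]
    rw [mul_smul, mul_smul, h4, h1, inv_smul_smul]
  have h5 := h _ h3
  have h6 : crd (z • y) = z * (z⁻¹ * crd (z • y) * (crd y)⁻¹) * crd y := by group
  rw [h6, h5, mul_one]

/-- The fixed points. -/
abbrev Fx (Y : Type) [MulAction ZZ Y] : Type := {y : Y // ∀ z : ZZ, z • y = y}

/-- The free product in which `FreeGroup Y ⋊ ℤ` embeds. -/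
abbrev TT (Y : Type) [MulAction ZZ Y] : Type := Coprod (FreeGroup (Fx Y) × ZZ) (FreeGroup Y)

theorem frAct_fx (z : ZZ) (w : FreeGroup (Fx Y)) :
    frAct ZZ Y z (FreeGroup.map Subtype.val w) = FreeGroup.map Subtype.val w := by
  have : ((frAct ZZ Y z).toMonoidHom.comp (FreeGroup.map Subtype.val)) =
      (FreeGroup.map Subtype.val : FreeGroup (Fx Y) →* FreeGroup Y) := by
    ext y
    simp [y.2 z]
  exact DFunLike.congr_fun this w

/-- The first factor. -/
def bb1 : FreeGroup (Fx Y) × ZZ →* FQ ZZ Y where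
  toFun p := ⟨FreeGroup.map Subtype.val p.1, p.2⟩
  map_one' := by ext <;> simp
  map_mul' p q := by
    ext
    · simp [frAct_fx]
    · simp

/-- The map back. -/
def bb : TT Y →* FQ ZZ Y :=
  Coprod.lift bb1 (FreeGroup.lift fun y => SemidirectProduct.inl (FreeGroup.of y))

open Classical in
/-- The images of the free generators. -/
noncomputable def aa (y : Y) : TT Y :=
  if hy : ∀ z : ZZ, z • y = y then Coprod.inl (FreeGroup.of ⟨y, hy⟩, 1)
  else Coprod.inl (1, crd y) * Coprod.inr (FreeGroup.of (rep y)) * (Coprod.inl (1, crd y))⁻¹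

theorem aa_smul (hY : ∀ y : Y, (∀ z : ZZ, z • y = y) ∨ ∀ z : ZZ, z • y = y → z = 1) (z : ZZ)
    (y : Y) : aa (z • y) = Coprod.inl (1, z) * aa y * (Coprod.inl (1, z))⁻¹ := by
  by_cases hy : ∀ z : ZZ, z • y = y
  · rw [hy z]
    simp only [aa, dif_pos hy]
    rw [← map_inv, ← map_mul, ← map_mul]
    congr 1
    ext <;> simp
  · have hy' : ¬ ∀ w : ZZ, w • z • y = z • y := by
      intro h
      apply hy
      intro w
      have := h w
      rw [smul_smul, mul_comm, ← smul_smul] at this
      exact MulAction.injective z this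
    simp only [aa, dif_neg hy, dif_neg hy']
    rw [crd_smul z y ((hY y).resolve_left hy), rep_smul]
    have : (Coprod.inl (1, z * crd y) : TT Y) = Coprod.inl (1, z) * Coprod.inl (1, crd y) := by
      rw [← map_mul]
      congr 1
    rw [this]
    group

theorem fq_semifree (hC : ClosedClass C)
    (hY : ∀ y : Y, (∀ z : ZZ, z • y = y) ∨ ∀ z : ZZ, z • y = y → z = 1) : C (FQ ZZ Y) := by
  let α : FQ ZZ Y →* TT Y := SemidirectProduct.lift (FreeGroup.lift aa)
    (Coprod.inl.comp (MonoidHom.inr (FreeGroup (Fx Y)) ZZ)) (fun z => by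
      ext y
      change FreeGroup.lift aa (FreeGroup.of (z • y)) =
        Coprod.inl (1, z) * FreeGroup.lift aa (FreeGroup.of y) * (Coprod.inl (1, z))⁻¹
      rw [FreeGroup.lift_apply_of, FreeGroup.lift_apply_of]
      exact aa_smul hY z y)
  have hinr : ∀ z : ZZ, (bb (Coprod.inl (1, z)) : FQ ZZ Y) = SemidirectProduct.inr z := fun z => by
    rw [bb, Coprod.lift_apply_inl]
    ext <;> simp [bb1]
  have hβα : bb.comp α = MonoidHom.id _ := by
    refine SemidirectProduct.hom_ext ?_ ?_
    · refine FreeGroup.ext_hom _ _ fun y => ?_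
      change bb (α (SemidirectProduct.inl (FreeGroup.of y))) =
        SemidirectProduct.inl (FreeGroup.of y)
      simp only [α, SemidirectProduct.lift_inl, FreeGroup.lift_apply_of, aa]
      split_ifs with hy
      · rw [bb, Coprod.lift_apply_inl]
        ext <;> simp [bb1]
      · rw [map_mul, map_mul, map_inv, hinr, bb, Coprod.lift_apply_inr, FreeGroup.lift_apply_of,
          ← map_inv, ← SemidirectProduct.inl_aut, frAct_of, crd_smul_rep]
    · refine MonoidHom.ext fun z => ?_
      change bb (α (SemidirectProduct.inr z)) = SemidirectProduct.inr z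
      simp only [α, SemidirectProduct.lift_inr]
      exact hinr z
  refine hC.inj α (Function.LeftInverse.injective (g := bb) fun x => DFunLike.congr_fun hβα x)
    (hC.freeProd _ _ (hC.prod _ _ (hC.freeGroup _) hC.int) (hC.freeGroup _))

end semifree

/-- The same set with the action restricted along a homomorphism. -/
def Tw {Q Q' : Type} [Group Q] [Group Q'] (_f : Q →* Q') (Y : Type) : Type := Y

instance {Q Q' : Type} [Group Q] [Group Q'] (f : Q →* Q') (Y : Type) [MulAction Q' Y] :
    MulAction Q (Tw f Y) := MulAction.compHom Y f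

theorem tw_smul {Q Q' : Type} [Group Q] [Group Q'] (f : Q →* Q') (Y : Type) [MulAction Q' Y]
    (q : Q) (y : Y) : (q • (show Tw f Y from y)) = (show Tw f Y from f q • y) := rfl

section ints

variable {Y : Type} [MulAction ZZ Y]

/-- The generator. -/
def gen : ZZ := Multiplicative.ofAdd 1

theorem zz_eq (z : ZZ) : ∃ k : ℤ, z = gen ^ k := by
  refine ⟨Multiplicative.toAdd z, ?_⟩
  rw [gen, ← ofAdd_zsmul]
  simp

/-- The invariant set of the points fixed by `N !` and of the points with infinite orbits. -/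
def YN (Y : Type) [MulAction ZZ Y] (N : ℕ) : SubMulAction ZZ Y where
  carrier := {y | (gen ^ N.factorial : ZZ) • y = y ∨ ∀ z : ZZ, z • y = y → z = 1}
  smul_mem' z y hy := by
    rcases hy with hy | hy
    · left
      rw [smul_smul, mul_comm, ← smul_smul, hy]
    · right
      intro w hw
      apply hy
      rw [smul_smul, mul_comm, ← smul_smul] at hw
      exact MulAction.injective z hw

theorem mem_YN {N : ℕ} {y : Y} : y ∈ YN Y N ↔
    (gen ^ N.factorial : ZZ) • y = y ∨ ∀ z : ZZ, z • y = y → z = 1 := Iff.rfl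

theorem YN_mono {M N : ℕ} (h : M ≤ N) {y : Y} (hy : y ∈ YN Y M) : y ∈ YN Y N := by
  rcases hy with hy | hy
  · left
    obtain ⟨k, hk⟩ := Nat.factorial_dvd_factorial h
    rw [hk, pow_mul]
    have h1 : (gen ^ M.factorial : ZZ) ∈ MulAction.stabilizer ZZ y := hy
    exact pow_mem h1 k
  · exact Or.inr hy

theorem exists_YN (y : Y) : ∃ N, y ∈ YN Y N := by
  by_cases hy : ∀ z : ZZ, z • y = y → z = 1
  · exact ⟨0, Or.inr hy⟩
  · push Not at hy
    obtain ⟨z, hz, hz1⟩ := hy
    obtain ⟨k, rfl⟩ := zz_eq z
    have hk : k ≠ 0 := by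
      rintro rfl
      exact hz1 (zpow_zero _)
    refine ⟨k.natAbs, Or.inl ?_⟩
    have h1 : (gen ^ k : ZZ) ∈ MulAction.stabilizer ZZ y := hz
    have h2 : (gen ^ k.natAbs : ZZ) ∈ MulAction.stabilizer ZZ y := by
      rcases Int.natAbs_eq k with h | h
      · rw [h, zpow_natCast] at h1
        simpa using h1
      · rw [h, zpow_neg, zpow_natCast, inv_mem_iff] at h1
        simpa using h1
    obtain ⟨m, hm⟩ := Nat.dvd_factorial (Int.natAbs_pos.2 hk) le_rfl
    rw [hm, pow_mul]
    exact pow_mem h2 m

theorem powRange_finiteIndex (n : ℕ) (hn : n ≠ 0) :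
    (powMonoidHom n : ZZ →* ZZ).range.FiniteIndex := by
  have : NeZero n := ⟨hn⟩
  let f : ZZ →* Multiplicative (ZMod n) := AddMonoidHom.toMultiplicative (Int.castAddHom (ZMod n))
  have h : f.ker ≤ (powMonoidHom n : ZZ →* ZZ).range := by
    intro z hz
    have h1 : ((Multiplicative.toAdd z : ℤ) : ZMod n) = 0 := hz
    rw [ZMod.intCast_zmod_eq_zero_iff_dvd] at h1
    obtain ⟨k, hk⟩ := h1
    refine ⟨Multiplicative.ofAdd k, ?_⟩
    change (Multiplicative.ofAdd k) ^ n = z
    rw [← ofAdd_nsmul]
    apply Multiplicative.toAdd.injective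
    rw [toAdd_ofAdd, hk]
    simp
  exact Subgroup.finiteIndex_of_le h

theorem fq_YN (hC : ClosedClass C) (N : ℕ) : C (FQ ZZ (YN Y N)) := by
  let f : ZZ →* ZZ := powMonoidHom N.factorial
  refine fq_finiteIndex hC (Q := ZZ) (Y := Tw f (YN Y N)) f (fun y => y) (fun q y => rfl) ?_
    Function.bijective_id (powRange_finiteIndex _ (Nat.factorial_ne_zero N)) ?_
  · intro a b hab
    exact pow_left_injective (Nat.factorial_ne_zero N) hab
  · refine fq_semifree hC fun y => ?_
    have key : ∀ z : ZZ, ((z • y : Tw f (YN Y N)) = y ↔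
        (z ^ N.factorial : ZZ) • (y : YN Y N).1 = (y : YN Y N).1) := by
      intro z
      exact Subtype.ext_iff
    rcases (y : YN Y N).2 with h | h
    · left
      intro z
      rw [key]
      obtain ⟨k, rfl⟩ := zz_eq z
      rw [← zpow_natCast, ← zpow_mul, mul_comm, zpow_mul, zpow_natCast]
      have h1 : (gen ^ N.factorial : ZZ) ∈ MulAction.stabilizer ZZ (y : YN Y N).1 := h
      exact zpow_mem h1 k
    · right
      intro z hz
      rw [key] at hz
      have := h _ hz
      exact pow_left_injective (Nat.factorial_ne_zero N) (this.trans (one_pow _).symm)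

theorem fq_int (hC : ClosedClass C) : C (FQ ZZ Y) := by
  refine hC.ofUnion (fun N => (mapY (MonoidHom.id ZZ) (Subtype.val : YN Y N → Y)
    (fun q y => rfl)).range) ?_ ?_ fun N => fq_range hC _ _ _ (fun _ _ h => h)
      Subtype.val_injective (fq_YN hC N)
  · rintro M N h _ ⟨x, rfl⟩
    refine ⟨mapY (MonoidHom.id ZZ) (fun y : YN Y M => (⟨y.1, YN_mono h y.2⟩ : YN Y N))
      (fun q y => rfl) x, ?_⟩
    ext
    · simp only [mapY_left]
      rw [FreeGroup.map.comp]
      rfl
    · rfl
  · intro g
    have h : ∀ w : FreeGroup Y, ∃ N, w ∈ (FreeGroup.map (Subtype.val : YN Y N → Y)).range := by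
      have hmono : ∀ M N, M ≤ N → (FreeGroup.map (Subtype.val : YN Y M → Y)).range ≤
          (FreeGroup.map (Subtype.val : YN Y N → Y)).range := by
        rintro M N hMN _ ⟨x, rfl⟩
        refine ⟨FreeGroup.map (fun y : YN Y M => (⟨y.1, YN_mono hMN y.2⟩ : YN Y N)) x, ?_⟩
        rw [FreeGroup.map.comp]
        rfl
      intro w
      induction w using FreeGroup.induction_on with
      | C1 => exact ⟨0, one_mem _⟩
      | of y =>
        obtain ⟨N, hN⟩ := exists_YN y
        exact ⟨N, FreeGroup.of ⟨y, hN⟩, by simp⟩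
      | inv_of y hy =>
        obtain ⟨N, hN⟩ := hy
        exact ⟨N, inv_mem hN⟩
      | mul a b ha hb =>
        obtain ⟨M, hM⟩ := ha
        obtain ⟨N, hN⟩ := hb
        exact ⟨max M N, mul_mem (hmono _ _ (le_max_left _ _) hM) (hmono _ _ (le_max_right _ _) hN)⟩
    obtain ⟨N, x, hx⟩ := h g.left
    refine ⟨N, ⟨x, g.right⟩, ?_⟩
    ext
    · exact hx
    · rfl

end ints

theorem ExtClass.freeExt (hC : ExtClass C) (Q Y : Type) [Group Q] [MulAction Q Y] (hQ : C Q) :
    C (FreeGroup Y ⋊[frAct Q Y] Q) := by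
  refine hC.ext _ Q (SemidirectProduct.rightHom) hQ fun q => ?_
  by_cases hq : IsOfFinOrder q
  · have : Finite (Subgroup.zpowers q) := hq.finite_zpowers
    let p := (SemidirectProduct.rightHom : FreeGroup Y ⋊[frAct Q Y] Q →* Q).subgroupComap
      (Subgroup.zpowers q)
    refine hC.finiteIndex _ p.ker inferInstance ?_
    have hker : ∀ x : p.ker, x.1.1.right = 1 := fun x => congrArg Subtype.val x.2
    refine hC.inj (H := FreeGroup Y)
      { toFun := fun x => x.1.1.left
        map_one' := rfl
        map_mul' := fun a b => by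
          change a.1.1.left * frAct Q Y a.1.1.right b.1.1.left = _
          rw [hker a, map_one]
          rfl } ?_ (hC.freeGroup Y)
    intro a b hab
    apply Subtype.ext
    apply Subtype.ext
    ext
    · exact hab
    · rw [hker a, hker b]
  · let f : ZZ →* Q := zpowersHom Q q
    have hf : Function.Injective f := by
      intro a b hab
      exact (injective_zpow_iff_not_isOfFinOrder.2 hq) hab
    let g : Tw f Y → Y := fun y => y
    have hg : ∀ (z : ZZ) (y : Tw f Y), g (z • y) = f z • g y := fun z y => rfl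
    have hr : (Subgroup.zpowers q).comap SemidirectProduct.rightHom = (mapY f g hg).range := by
      rw [mapY_range f g hg Function.surjective_id]
      congr 1
    rw [hr]
    exact fq_range hC.toClosedClass f g hg hf Function.injective_id (fq_int hC.toClosedClass)

end Pool.Agent.Helper29.PA
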